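import Pool.Agent.N641.VB.Stm8

set_option autoImplicit false
set_option linter.unusedVariables false
set_option linter.unusedSectionVars false

/-!
# Boolean algebras with an automorphism of prime order are bi-interpretable with Boolean algebras
with an ideal
-/

namespace Pool.Agent.N700.VB.AUB

open FirstOrder FirstOrder.Language Pool.Agent.N641.VB
open scoped symmDiff

/-- the two-element monoid -/
@[reducible] def orM : AddCommMonoid Prop where
  add := Or
  zero := False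
  add_assoc := fun a b c => propext or_assoc
  zero_add := fun a => propext ⟨fun h => h.elim False.elim id, Or.inr⟩
  add_zero := fun a => propext ⟨fun h => h.elim id False.elim, Or.inl⟩
  add_comm := fun a b => propext or_comm
  nsmul := @nsmulRec _ ⟨False⟩ ⟨Or⟩

/-- the criterion for a structure with an arbitrary universe -/
def BiU {L : FirstOrder.Language.{0, 0}} {U : Type} (S : L.Structure U) {M B : Type}
    [BooleanAlgebra B] (mu : B → M) : Prop :=
  ∃ (t r : ℕ) (D : (Fin r → B) → Prop) (g : (Fin r → B) → U) (E : (Fin t → U) → Prop)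
    (f : (Fin t → U) → B),
    DefP (str (· ≤ ·) mu) D ∧ (∀ s, ∃ x, D x ∧ g x = s) ∧
    DefP (str (· ≤ ·) mu) (fun v : Fin 2 × Fin r → B => (∀ i, D fun j => v (i, j)) ∧
      g (fun j => v (0, j)) = g (fun j => v (1, j))) ∧
    (∀ (l : ℕ) (R : L.Relations l), DefP (str (· ≤ ·) mu)
      (fun v : Fin l × Fin r → B => (∀ i, D fun j => v (i, j)) ∧
        @Structure.RelMap L U S l R (fun i => g fun j => v (i, j)))) ∧
    (∀ (l : ℕ) (F : L.Functions l), DefP (str (· ≤ ·) mu)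
      (fun v : Fin (l + 1) × Fin r → B => (∀ i, D fun j => v (i, j)) ∧
        @Structure.funMap L U S l F (fun i => g fun j => v (i.castSucc, j)) =
          g (fun j => v (Fin.last l, j)))) ∧
    DefP S E ∧ (∀ b, ∃ x, E x ∧ f x = b) ∧
    DefP S (fun v : Fin 2 × Fin t → U => (∀ i, E fun j => v (i, j)) ∧
      f (fun j => v (0, j)) ≤ f (fun j => v (1, j))) ∧
    (∀ c, DefP S (fun x : Fin t → U => E x ∧ mu (f x) = c)) ∧
    DefP (str (· ≤ ·) mu) (fun v : (Fin t × Fin r) ⊕ Fin 1 → B =>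
      (∀ i, D fun j => v (Sum.inl (i, j))) ∧ (E fun i => g fun j => v (Sum.inl (i, j))) ∧
        f (fun i => g fun j => v (Sum.inl (i, j))) = v (Sum.inr 0))

/-! ### closure properties -/

theorem dcg {L : FirstOrder.Language.{0, 0}} {U α : Type} {S : L.Structure U}
    {a b : (α → U) → Prop} (h : DefP S a) (e : ∀ v, a v ↔ b v) : DefP S b := by
  have : a = b := funext fun v => propext (e v)
  rwa [← this]

section cl

variable (DPC : S_DPC) {L : FirstOrder.Language.{0, 0}} {U α : Type} {S : L.Structure U}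

include DPC

theorem dnot {a : (α → U) → Prop} (h : DefP S a) : DefP S (fun v => ¬ a v) :=
  (DPC L U S).1 α a h

theorem dand {a b : (α → U) → Prop} (h : DefP S a) (k : DefP S b) :
    DefP S (fun v => a v ∧ b v) := (DPC L U S).2.1 α a b h k

theorem dimp {a b : (α → U) → Prop} (h : DefP S a) (k : DefP S b) :
    DefP S (fun v => a v → b v) := (DPC L U S).2.2.2.1 α a b h k

theorem diff {a b : (α → U) → Prop} (h : DefP S a) (k : DefP S b) :
    DefP S (fun v => a v ↔ b v) :=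
  dcg (dand DPC (dimp DPC h k) (dimp DPC k h)) fun v => ⟨fun h => ⟨h.1, h.2⟩, fun h => ⟨h.1, h.2⟩⟩

theorem dall {P : (α → U) → U → Prop}
    (h : DefP S (fun v : α ⊕ Unit → U => P (fun i => v (Sum.inl i)) (v (Sum.inr ())))) :
    DefP S (fun v => ∀ u, P v u) :=
  dcg ((DPC L U S).2.2.2.2.2.1 α Unit _ h).2
    fun v => ⟨fun h u => h (fun _ => u), fun h w => h (w ())⟩

theorem dex {P : (α → U) → U → Prop}
    (h : DefP S (fun v : α ⊕ Unit → U => P (fun i => v (Sum.inl i)) (v (Sum.inr ())))) :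
    DefP S (fun v => ∃ u, P v u) :=
  dcg ((DPC L U S).2.2.2.2.2.1 α Unit _ h).1
    fun v => ⟨fun ⟨w, h⟩ => ⟨w (), h⟩, fun ⟨u, h⟩ => ⟨fun _ => u, h⟩⟩

theorem dfin {ι : Type} [Finite ι] {P : ι → (α → U) → Prop} (h : ∀ i, DefP S (P i)) :
    DefP S (fun v => ∀ i, P i v) := ((DPC L U S).2.2.2.2.2.2.1 α ι P h).1

theorem deq (i j : α) : DefP S (fun v : α → U => v i = v j) :=
  (DPC L U S).2.2.2.2.2.2.2.1 α i j

theorem drel {l : ℕ} (R : L.Relations l) (h : Fin l → α) :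
    DefP S (fun v : α → U => @Structure.RelMap L U S l R (fun i => v (h i))) :=
  (DPC L U S).2.2.2.2.2.2.2.2.2.1 α l R h

theorem dfun {l : ℕ} (F : L.Functions l) (h : Fin l → α) (j : α) :
    DefP S (fun v : α → U => @Structure.funMap L U S l F (fun i => v (h i)) = v j) :=
  (DPC L U S).2.2.2.2.2.2.2.2.2.2.1 α l F h j

theorem dpr (P : Prop) : DefP S (fun _ : α → U => P) :=
  (DPC L U S).2.2.2.2.2.2.2.2.2.2.2 α P

end cl

/-! ### the structure of the algebra -/

section T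

variable (DPC : S_DPC) {C M : Type} [BooleanAlgebra C] {mu : C → M}

include DPC

theorem leT {α : Type} (a b : α) : DefP (str (· ≤ ·) mu) (fun v : α → C => v a ≤ v b) :=
  dcg (drel DPC (S := str (· ≤ ·) mu) (Pool.Agent.N641.VB.Sym.le : Pool.Agent.N641.VB.Sym M 2) ![a, b]) fun v => Iff.rfl

theorem valT {α : Type} (a : α) (x : M) :
    DefP (str (· ≤ ·) mu) (fun v : α → C => mu (v a) = x) :=
  dcg (drel DPC (S := str (· ≤ ·) mu) (Pool.Agent.N641.VB.Sym.val x : Pool.Agent.N641.VB.Sym M 1) ![a]) fun v => Iff.rfl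

theorem leSup {α : Type} (a b c : α) :
    DefP (str (· ≤ ·) mu) (fun v : α → C => v a ≤ v b ⊔ v c) := by
  refine dcg (dall DPC (P := fun v w => v b ≤ w → v c ≤ w → v a ≤ w) ?_) fun v => ?_
  · exact dimp DPC (leT DPC _ _) (dimp DPC (leT DPC _ _) (leT DPC _ _))
  · exact ⟨fun h => h _ le_sup_left le_sup_right, fun h w h1 h2 => h.trans (sup_le h1 h2)⟩

theorem symT {α : Type} (a b c : α) :
    DefP (str (· ≤ ·) mu) (fun v : α → C => symmDiff (v a) (v b) = v c) := by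
  refine dcg (dall DPC (P := fun v w => v c ≤ w ↔ (v a ≤ v b ⊔ w ∧ v b ≤ v a ⊔ w)) ?_)
    fun v => ?_
  · exact diff DPC (leT DPC _ _) (dand DPC (leSup DPC _ _ _) (leSup DPC _ _ _))
  · simp only [← symmDiff_le_iff]
    constructor
    · intro h
      exact le_antisymm ((h _).1 le_rfl) ((h _).2 le_rfl)
    · rintro h w
      rw [h]

theorem freeT {α : Type} (a b : α) (x : M) :
    DefP (str (· ≤ ·) mu) (fun v : α → C => mu (symmDiff (v a) (v b)) = x) := by
  refine dcg (dex DPC (P := fun v w => symmDiff (v a) (v b) = w ∧ mu w = x) ?_) fun v => ?_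
  · exact dand DPC (symT DPC _ _ _) (valT DPC _ _)
  · exact ⟨fun ⟨w, h, k⟩ => by rw [h]; exact k, fun h => ⟨_, rfl, h⟩⟩

end T

/-! ### the structure with the automorphism -/

section A

variable (DPC : S_DPC) {U : Type} [BooleanAlgebra U] {s : U → U}

include DPC

theorem leS {α : Type} (a b : α) : DefP (strA (· ≤ ·) s) (fun v : α → U => v a ≤ v b) :=
  dcg (drel DPC (S := strA (· ≤ ·) s) (SymO.le : SymO 2) ![a, b]) fun v => Iff.rfl

theorem fS {α : Type} (a b : α) : DefP (strA (· ≤ ·) s) (fun v : α → U => s (v a) = v b) :=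
  dcg (dfun DPC (S := strA (· ≤ ·) s) (FunA.s : FunA 1) ![a] b) fun v => Iff.rfl

theorem itS : ∀ (i : ℕ) {α : Type} (a b : α),
    DefP (strA (· ≤ ·) s) (fun v : α → U => s^[i] (v a) = v b)
  | 0, α, a, b => deq DPC a b
  | i + 1, α, a, b => by
    refine dcg (dex DPC (P := fun v w => s (v a) = w ∧ s^[i] w = v b) ?_) fun v => ?_
    · exact dand DPC (fS DPC _ _) (itS i _ _)
    · exact ⟨fun ⟨w, h, k⟩ => by rw [Function.iterate_succ_apply, h]; exact k,
        fun h => ⟨_, rfl, h⟩⟩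

theorem djS {α : Type} (a b : α) :
    DefP (strA (· ≤ ·) s) (fun v : α → U => v a ⊓ v b = ⊥) := by
  refine dcg (dall DPC (P := fun v w => w ≤ v a → w ≤ v b → ∀ y, w ≤ y) ?_) fun v => ?_
  · refine dimp DPC (leS DPC _ _) (dimp DPC (leS DPC _ _) ?_)
    exact dall DPC (P := fun v y => v (Sum.inr ()) ≤ y) (leS DPC _ _)
  · exact ⟨fun h => le_bot_iff.1 (h _ inf_le_left inf_le_right ⊥),
      fun h w h1 h2 y => (le_inf h1 h2).trans (h.le.trans bot_le)⟩

theorem itdj (i j : ℕ) {α : Type} (a : α) :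
    DefP (strA (· ≤ ·) s) (fun v : α → U => s^[i] (v a) ⊓ s^[j] (v a) = ⊥) := by
  refine dcg (dex DPC (P := fun v w => s^[i] (v a) = w ∧ ∃ z, s^[j] (v a) = z ∧ w ⊓ z = ⊥) ?_)
    fun v => ?_
  · refine dand DPC (itS DPC _ _ _) ?_
    refine dex DPC (P := fun v z => s^[j] (v (Sum.inl a)) = z ∧ v (Sum.inr ()) ⊓ z = ⊥) ?_
    exact dand DPC (itS DPC _ _ _) (djS DPC _ _)
  · exact ⟨fun ⟨w, h, z, k, l⟩ => by rw [h, k]; exact l, fun h => ⟨_, rfl, _, rfl, h⟩⟩

theorem itle (i : ℕ) {α : Type} (a b : α) :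
    DefP (strA (· ≤ ·) s) (fun v : α → U => s^[i] (v a) ≤ v b) := by
  refine dcg (dex DPC (P := fun v w => s^[i] (v a) = w ∧ w ≤ v b) ?_) fun v => ?_
  · exact dand DPC (itS DPC _ _ _) (leS DPC _ _)
  · exact ⟨fun ⟨w, h, k⟩ => by rw [h]; exact k, fun h => ⟨_, rfl, h⟩⟩

theorem frS (p : ℕ) {α : Type} (a : α) :
    DefP (strA (· ≤ ·) s) (fun v : α → U => FreeP p s (v a)) := by
  refine dcg (dex DPC (P := fun v d => (∀ ij : Fin p × Fin p, ij.1 ≠ ij.2 →
    s^[(ij.1 : ℕ)] d ⊓ s^[(ij.2 : ℕ)] d = ⊥) ∧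
      ∀ x, (∀ i : Fin p, s^[(i : ℕ)] d ≤ x) ↔ v a ≤ x) ?_) fun v => ?_
  · refine dand DPC (dfin DPC fun ij => dimp DPC (dpr DPC _) (itdj DPC _ _ _)) ?_
    refine dall DPC (P := fun v x => (∀ i : Fin p, s^[(i : ℕ)] (v (Sum.inr ())) ≤ x) ↔
      v (Sum.inl a) ≤ x) ?_
    exact diff DPC (dfin DPC fun i => itle DPC _ _ _) (leS DPC _ _)
  · constructor
    · rintro ⟨d, h1, h2⟩
      refine ⟨d, fun i j hi hj hij => h1 (⟨i, hi⟩, ⟨j, hj⟩) fun h => hij (Fin.mk.inj_iff.1 h),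
        fun x => ?_⟩
      rw [← h2 x]
      exact ⟨fun h i => h i i.2, fun h i hi => h ⟨i, hi⟩⟩
    · rintro ⟨d, h1, h2⟩
      refine ⟨d, fun ij h => h1 _ _ ij.1.2 ij.2.2 fun h' => h (Fin.ext h'), fun x => ?_⟩
      rw [← h2 x]
      exact ⟨fun h i hi => h ⟨i, hi⟩, fun h i => h i i.2⟩

end A

/-! ### free elements -/

section F

variable {U : Type} [BooleanAlgebra U] {s : U → U} {p : ℕ}

/-- the order isomorphism -/
def sO (hp0 : 0 < p) (hs : ∀ a b, a ≤ b ↔ s a ≤ s b) (hp : ∀ a, s^[p] a = a) : U ≃o U where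
  toFun := s
  invFun := s^[p - 1]
  left_inv := fun a => by
    rw [← Function.iterate_succ_apply, Nat.succ_eq_add_one, Nat.sub_add_cancel hp0, hp]
  right_inv := fun a => by
    rw [← Function.iterate_succ_apply' s, Nat.succ_eq_add_one, Nat.sub_add_cancel hp0, hp]
  map_rel_iff' := (hs _ _).symm

theorem it_bot (h : s ⊥ = ⊥) : ∀ i : ℕ, s^[i] ⊥ = ⊥
  | 0 => rfl
  | i + 1 => by rw [Function.iterate_succ_apply, h, it_bot h i]

theorem it_fix {c : U} (h : s c = c) : ∀ i : ℕ, s^[i] c = c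
  | 0 => rfl
  | i + 1 => by rw [Function.iterate_succ_apply, h, it_fix h i]

theorem it_inf (h : ∀ a b, s (a ⊓ b) = s a ⊓ s b) : ∀ (i : ℕ) (a b : U),
    s^[i] (a ⊓ b) = s^[i] a ⊓ s^[i] b
  | 0, a, b => rfl
  | i + 1, a, b => by
    rw [Function.iterate_succ_apply, h, it_inf h i, ← Function.iterate_succ_apply,
      ← Function.iterate_succ_apply]

theorem it_sup (h : ∀ a b, s (a ⊔ b) = s a ⊔ s b) : ∀ (i : ℕ) (a b : U),
    s^[i] (a ⊔ b) = s^[i] a ⊔ s^[i] b
  | 0, a, b => rfl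
  | i + 1, a, b => by
    rw [Function.iterate_succ_apply, h, it_sup h i, ← Function.iterate_succ_apply,
      ← Function.iterate_succ_apply]

theorem fr_bot (h : s ⊥ = ⊥) : FreeP p s (⊥ : U) := by
  refine ⟨⊥, fun i j _ _ _ => ?_, fun x => ?_⟩
  · rw [it_bot h, bot_inf_eq]
  · exact ⟨fun _ => bot_le, fun _ i _ => by rw [it_bot h]; exact bot_le⟩

theorem fr_mono (h : ∀ a b, s (a ⊓ b) = s a ⊓ s b) {c c' : U} (hc : FreeP p s c)
    (hle : c' ≤ c) (hf : s c' = c') : FreeP p s c' := by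
  obtain ⟨d, h1, h2⟩ := hc
  refine ⟨d ⊓ c', fun i j hi hj hij => ?_, fun x => ?_⟩
  · rw [it_inf h, it_inf h]
    refine le_bot_iff.1 ?_
    rw [← h1 i j hi hj hij]
    exact inf_le_inf inf_le_left inf_le_left
  · simp only [it_inf h, it_fix hf, ← le_himp_iff]
    rw [h2]
    rw [le_himp_iff, inf_eq_right.2 hle]

theorem fr_sup (h : ∀ a b, s (a ⊔ b) = s a ⊔ s b) {c c' : U} (hc : FreeP p s c)
    (hc' : FreeP p s c') (hd : c ⊓ c' = ⊥) : FreeP p s (c ⊔ c') := by
  obtain ⟨d, h1, h2⟩ := hc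
  obtain ⟨d', h1', h2'⟩ := hc'
  have k : ∀ i < p, s^[i] d ≤ c := (h2 c).2 le_rfl
  have k' : ∀ i < p, s^[i] d' ≤ c' := (h2' c').2 le_rfl
  refine ⟨d ⊔ d', fun i j hi hj hij => ?_, fun x => ?_⟩
  · rw [it_sup h, it_sup h, inf_sup_left, inf_sup_right, inf_sup_right, h1 i j hi hj hij,
      h1' i j hi hj hij, bot_sup_eq, sup_bot_eq]
    refine le_bot_iff.1 (sup_le ?_ ?_)
    · rw [inf_comm, ← hd]
      exact inf_le_inf (k j hj) (k' i hi)
    · rw [← hd]
      exact inf_le_inf (k i hi) (k' j hj)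
  · simp only [it_sup h, sup_le_iff, ← h2 x, ← h2' x]
    exact ⟨fun h => ⟨fun i hi => (h i hi).1, fun i hi => (h i hi).2⟩,
      fun h i hi => ⟨h.1 i hi, h.2 i hi⟩⟩

/-- the fixed elements -/
def fx (hp0 : 0 < p) (hs : ∀ a b, a ≤ b ↔ s a ≤ s b) (hp : ∀ a, s^[p] a = a) :
    BooleanSubalgebra U where
  carrier := {c | s c = c}
  supClosed' := fun a ha b hb => by
    have : s (a ⊔ b) = s a ⊔ s b := map_sup (sO hp0 hs hp) a b
    show s (a ⊔ b) = a ⊔ b
    rw [this, ha, hb]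
  infClosed' := fun a ha b hb => by
    have : s (a ⊓ b) = s a ⊓ s b := map_inf (sO hp0 hs hp) a b
    show s (a ⊓ b) = a ⊓ b
    rw [this, ha, hb]
  compl_mem' := fun {a} ha => by
    have : s (aᶜ) = (s a)ᶜ := map_compl' (sO hp0 hs hp) a
    show s (aᶜ) = aᶜ
    rw [this, ha]
  bot_mem' := map_bot (sO hp0 hs hp)

end F

/-! ### the bi-interpretation -/

theorem nF (P : Prop) : ((¬ P) = False) ↔ P :=
  ⟨fun h => Classical.not_not.1 fun k => by rw [← h]; exact k,
    fun h => propext ⟨fun k => k h, False.elim⟩⟩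

theorem main (DPC : S_DPC) {U : Type} [BooleanAlgebra U] {s : U → U} {p : ℕ}
    {Φ : U → ZMod p → U} (ε : Fin p ≃ ZMod p)
    (h1 : ∀ b i, s (Φ b i) = Φ b i) (h2 : ∀ a b, a ≤ b ↔ ∀ i, Φ a i ≤ Φ b i)
    (h3 : ∀ b i, Φ (s b) i = Φ b (i - 1)) (h4 : ∀ b, s b = b → ∀ i, Φ b i = b)
    (h5 : ∀ b i j, FreeP p s (symmDiff (Φ b i) (Φ b j)))
    (h6 : ∀ c : ZMod p → U, (∀ i, s (c i) = c i) →
      (∀ i j, FreeP p s (symmDiff (c i) (c j))) → ∃ b, Φ b = c)
    {C : Type} [BooleanAlgebra C] (e : C → U) (hle : ∀ a b, a ≤ b ↔ e a ≤ e b)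
    (hfix : ∀ u, s u = u ↔ ∃ c, e c = u)
    (hsym : ∀ a b, e (symmDiff a b) = symmDiff (e a) (e b)) (mu : C → Prop)
    (hmu : ∀ c, mu c = ¬ FreeP p s (e c)) :
    BiU (strA (· ≤ ·) s) mu := by
  have einj : ∀ a b, e a = e b → a = b := fun a b h =>
    le_antisymm ((hle _ _).2 h.le) ((hle _ _).2 h.ge)
  have Φinj : ∀ a b, Φ a = Φ b → a = b := fun a b h =>
    le_antisymm ((h2 _ _).2 fun i => by rw [h]) ((h2 _ _).2 fun i => by rw [h])
  set D : (Fin p → C) → Prop := fun v => ∀ i j : Fin p, FreeP p s (symmDiff (e (v i)) (e (v j)))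
    with hDdef
  have hg0 : ∀ v : Fin p → C, ∃ b, D v → ∀ i, Φ b (ε i) = e (v i) := by
    intro v
    by_cases hv : D v
    · obtain ⟨b, hb⟩ := h6 (fun k => e (v (ε.symm k))) (fun i => (hfix _).2 ⟨_, rfl⟩)
        (fun i j => hv _ _)
      refine ⟨b, fun _ i => ?_⟩
      rw [hb]
      show e (v (ε.symm (ε i))) = _
      rw [ε.symm_apply_apply]
    · exact ⟨⊥, fun h => absurd h hv⟩
  choose g hg using hg0
  have gi : ∀ v b, (D v ∧ g v = b) ↔ ∀ i, Φ b (ε i) = e (v i) := by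
    intro v b
    constructor
    · rintro ⟨hv, rfl⟩
      exact hg v hv
    · intro h
      have hv : D v := fun i j => by rw [← h i, ← h j]; exact h5 _ _ _
      refine ⟨hv, Φinj _ _ (funext fun k => ?_)⟩
      have := hg v hv (ε.symm k)
      rw [← h (ε.symm k), ε.apply_symm_apply] at this
      exact this
  have hf0 : ∀ x : Fin 1 → U, ∃ c, s (x 0) = x 0 → e c = x 0 := by
    intro x
    by_cases hx : s (x 0) = x 0
    · obtain ⟨c, hc⟩ := (hfix _).1 hx
      exact ⟨c, fun _ => hc⟩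
    · exact ⟨⊥, fun h => absurd h hx⟩
  choose f hf using hf0
  have hD : ∀ {α : Type} (k : Fin p → α),
      DefP (str (· ≤ ·) mu) (fun v : α → C => D (fun j => v (k j))) := by
    intro α k
    refine dcg (dfin DPC (P := fun (ij : Fin p × Fin p) (v : α → C) =>
      mu (symmDiff (v (k ij.1)) (v (k ij.2))) = False) fun ij => freeT DPC _ _ _) fun v => ?_
    constructor
    · intro h i j
      have := h (i, j)
      rw [hmu, nF, hsym] at this
      exact this
    · intro h ij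
      rw [hmu, nF, hsym]
      exact h _ _
  have gle : ∀ v w, D v → D w → (g v ≤ g w ↔ ∀ j, v j ≤ w j) := by
    intro v w hv hw
    rw [h2]
    constructor
    · intro h j
      have := h (ε j)
      rw [hg v hv, hg w hw] at this
      exact (hle _ _).2 this
    · intro h k
      obtain ⟨j, rfl⟩ := ε.surjective k
      rw [hg v hv, hg w hw]
      exact (hle _ _).1 (h j)
  have geq : ∀ v w, D v → D w → (g v = g w ↔ ∀ j, v j = w j) := by
    intro v w hv hw
    rw [le_antisymm_iff, gle v w hv hw, gle w v hw hv]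
    exact ⟨fun h j => le_antisymm (h.1 j) (h.2 j), fun h => ⟨fun j => (h j).le, fun j => (h j).ge⟩⟩
  have gs : ∀ v w, D v → D w → (s (g v) = g w ↔ ∀ j, w j = v (ε.symm (ε j - 1))) := by
    intro v w hv hw
    constructor
    · intro h j
      have := h3 (g v) (ε j)
      rw [h, hg w hw] at this
      obtain ⟨k, hk⟩ := ε.surjective (ε j - 1)
      rw [← hk, hg v hv] at this
      rw [← hk, ε.symm_apply_apply]
      exact einj _ _ this
    · intro h
      refine Φinj _ _ (funext fun k => ?_)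
      obtain ⟨j, rfl⟩ := ε.surjective k
      rw [h3, hg w hw, h j]
      obtain ⟨k, hk⟩ := ε.surjective (ε j - 1)
      rw [← hk, hg v hv, ε.symm_apply_apply]
  refine ⟨1, p, D, g, fun x => s (x 0) = x 0, f, ?_, ?_, ?_, ?_, ?_, ?_, ?_, ?_, ?_, ?_⟩
  · exact hD (fun j => j)
  · intro b
    have hc : ∀ i, ∃ c, e c = Φ b i := fun i => (hfix _).1 (h1 b i)
    choose c hc using hc
    refine ⟨fun i => c (ε i), (gi _ _).2 fun i => (hc _).symm⟩
  · refine dcg (dand DPC (dfin DPC (P := fun (i : Fin 2) (v : Fin 2 × Fin p → C) =>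
      D (fun j => v (i, j))) fun i => hD _) (dfin DPC (P := fun (j : Fin p)
      (v : Fin 2 × Fin p → C) => v (0, j) = v (1, j)) fun j => deq DPC _ _)) fun v => ?_
    constructor
    · rintro ⟨h, k⟩
      exact ⟨h, (geq _ _ (h 0) (h 1)).2 k⟩
    · rintro ⟨h, k⟩
      exact ⟨h, (geq _ _ (h 0) (h 1)).1 k⟩
  · rintro l (R : SymO l)
    cases R
    refine dcg (dand DPC (dfin DPC (P := fun (i : Fin 2) (v : Fin 2 × Fin p → C) =>
      D (fun j => v (i, j))) fun i => hD _) (dfin DPC (P := fun (j : Fin p)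
      (v : Fin 2 × Fin p → C) => v (0, j) ≤ v (1, j)) fun j => leT DPC _ _)) fun v => ?_
    constructor
    · rintro ⟨h, k⟩
      exact ⟨h, (gle _ _ (h 0) (h 1)).2 k⟩
    · rintro ⟨h, k⟩
      exact ⟨h, (gle _ _ (h 0) (h 1)).1 k⟩
  · rintro l (F : FunA l)
    cases F
    refine dcg (dand DPC (dfin DPC (P := fun (i : Fin 2) (v : Fin 2 × Fin p → C) =>
      D (fun j => v (i, j))) fun i => hD _) (dfin DPC (P := fun (j : Fin p)
      (v : Fin 2 × Fin p → C) => v (1, j) = v (0, ε.symm (ε j - 1))) fun j => deq DPC _ _))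
      fun v => ?_
    constructor
    · rintro ⟨h, k⟩
      exact ⟨h, (gs _ _ (h 0) (h 1)).2 k⟩
    · rintro ⟨h, k⟩
      exact ⟨h, (gs _ _ (h 0) (h 1)).1 k⟩
  · exact fS DPC _ _
  · intro b
    refine ⟨fun _ => e b, (hfix _).2 ⟨_, rfl⟩, einj _ _ ?_⟩
    exact hf (fun _ => e b) ((hfix _).2 ⟨_, rfl⟩)
  · refine dcg (dand DPC (dfin DPC (P := fun (i : Fin 2) (v : Fin 2 × Fin 1 → U) =>
      s (v (i, 0)) = v (i, 0)) fun i => fS DPC _ _) (leS DPC (0, 0) (1, 0))) fun v => ?_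
    constructor
    · rintro ⟨h, k⟩
      refine ⟨h, (hle _ _).2 ?_⟩
      rw [hf (fun j => v (0, j)) (h 0), hf (fun j => v (1, j)) (h 1)]
      exact k
    · rintro ⟨h, k⟩
      refine ⟨h, ?_⟩
      have := (hle _ _).1 k
      rw [hf (fun j => v (0, j)) (h 0), hf (fun j => v (1, j)) (h 1)] at this
      exact this
  · intro c
    refine dcg (dand DPC (fS DPC 0 0) (diff DPC (dnot DPC (frS DPC p 0)) (dpr DPC c)))
      fun v => ?_
    constructor
    · rintro ⟨h, k⟩
      refine ⟨h, ?_⟩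
      rw [hmu, hf v h]
      exact propext k
    · rintro ⟨h, k⟩
      refine ⟨h, ?_⟩
      rw [hmu, hf v h] at k
      exact iff_of_eq k
  · refine dcg (dand DPC (hD (fun j => Sum.inl ((0 : Fin 1), j))) (dfin DPC
      (P := fun (j : Fin p) (v : (Fin 1 × Fin p) ⊕ Fin 1 → C) =>
        v (Sum.inl ((0 : Fin 1), j)) = v (Sum.inr 0)) fun j => deq DPC _ _)) fun v => ?_
    constructor
    · rintro ⟨h, k⟩
      have hc : s (e (v (Sum.inr 0))) = e (v (Sum.inr 0)) := (hfix _).2 ⟨_, rfl⟩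
      have hk : g (fun j => v (Sum.inl ((0 : Fin 1), j))) = e (v (Sum.inr 0)) := by
        refine ((gi _ _).2 fun i => ?_).2
        show _ = e (v (Sum.inl ((0 : Fin 1), i)))
        rw [h4 _ hc, k i]
      refine ⟨fun i => ?_, ?_, ?_⟩
      · rw [Subsingleton.elim i 0]
        exact h
      · show s (g (fun j => v (Sum.inl ((0 : Fin 1), j)))) = g (fun j => v (Sum.inl ((0 : Fin 1), j)))
        rw [hk, hc]
      · refine einj _ _ ?_
        rw [hf]
        · exact hk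
        · show s (g (fun j => v (Sum.inl ((0 : Fin 1), j)))) =
            g (fun j => v (Sum.inl ((0 : Fin 1), j)))
          rw [hk, hc]
    · rintro ⟨h, k, l⟩
      have k' : s (g (fun j => v (Sum.inl ((0 : Fin 1), j)))) =
        g (fun j => v (Sum.inl ((0 : Fin 1), j))) := k
      refine ⟨h 0, fun j => einj _ _ ?_⟩
      rw [← l, hf _ k]
      show e ((fun j => v (Sum.inl ((0 : Fin 1), j))) j) = g (fun j => v (Sum.inl ((0 : Fin 1), j)))
      rw [← hg _ (h 0), h4 _ k']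

theorem finLA : Finite LA.Symbols := by
  haveI h1 : Finite (Σ l, LA.Functions l) := by
    refine Finite.of_injective (fun _ : (Σ l, LA.Functions l) => ()) ?_
    rintro ⟨l, F⟩ ⟨k, G⟩ _
    change FunA l at F
    change FunA k at G
    cases F
    cases G
    rfl
  haveI h2 : Finite (Σ l, LA.Relations l) := by
    refine Finite.of_injective (fun _ : (Σ l, LA.Relations l) => ()) ?_
    rintro ⟨l, F⟩ ⟨k, G⟩ _
    change SymO l at F
    change SymO k at G
    cases F
    cases G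
    rfl
  exact inferInstanceAs (Finite ((Σ l, LA.Functions l) ⊕ Σ l, LA.Relations l))

theorem gen (DPC : S_DPC) (AUA : S_AUA) (p : ℕ) [hpp : Fact p.Prime] (U : Type)
    [BooleanAlgebra U] [Countable U] [Infinite U] (s : U → U)
    (hs : ∀ a b, a ≤ b ↔ s a ≤ s b) (hp : ∀ a, s^[p] a = a) :
    ∃ (C : Type) (_ : BooleanAlgebra C) (mu : C → Prop), Countable C ∧ Infinite C ∧
      @AM Prop orM C _ mu ∧ BiU (strA (· ≤ ·) s) mu := by
  obtain ⟨Φ, h1, h2, h3, h4, h5, h6⟩ := AUA p U s hs hp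
  have hp0 : 0 < p := hpp.out.pos
  have ssup : ∀ a b, s (a ⊔ b) = s a ⊔ s b := map_sup (sO hp0 hs hp)
  have sinf : ∀ a b, s (a ⊓ b) = s a ⊓ s b := map_inf (sO hp0 hs hp)
  have sbot : s ⊥ = ⊥ := map_bot (sO hp0 hs hp)
  have Φinj : ∀ a b, Φ a = Φ b → a = b := fun a b h =>
    le_antisymm ((h2 _ _).2 fun i => by rw [h]) ((h2 _ _).2 fun i => by rw [h])
  refine ⟨fx hp0 hs hp, inferInstance, fun c => ¬ FreeP p s (c : U), ?_, ?_, ?_, ?_⟩
  · exact Subtype.countable
  · refine not_finite_iff_infinite.1 fun hfin => ?_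
    have : Function.Injective (fun (u : U) (i : ZMod p) => (⟨Φ u i, h1 u i⟩ : fx hp0 hs hp)) :=
      fun a b h => Φinj _ _ (funext fun i => congrArg Subtype.val (congrFun h i))
    exact (Finite.of_injective _ this).false
  · refine @AM.mk _ orM _ _ _ ?_ ?_
    · show (¬ FreeP p s (⊥ : U)) = False
      rw [nF]
      exact fr_bot sbot
    · intro a b hab
      show (¬ FreeP p s ((a : U) ⊔ (b : U))) = ((¬ FreeP p s (a : U)) ∨ (¬ FreeP p s (b : U)))
      have hab' : (a : U) ⊓ (b : U) = ⊥ := congrArg Subtype.val (disjoint_iff.1 hab)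
      refine propext ?_
      rw [← not_and_or, not_iff_not]
      exact ⟨fun h => ⟨fr_mono sinf h le_sup_left a.2, fr_mono sinf h le_sup_right b.2⟩,
        fun h => fr_sup ssup h.1 h.2 hab'⟩
  · exact main DPC (Fintype.equivFinOfCardEq (ZMod.card p)).symm h1 h2 h3 h4 h5 h6
      (fun c : fx hp0 hs hp => (c : U)) (fun a b => Iff.rfl)
      (fun u => ⟨fun h => ⟨⟨u, h⟩, rfl⟩, fun ⟨c, h⟩ => h ▸ c.2⟩) (fun a b => rfl) _
      (fun c => rfl)

theorem AUB (DPC : S_DPC) (BMD : S_BMD) (AUA : S_AUA) : S_AUB := by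
  intro p _ bo s hs hp
  obtain ⟨C, _, mu, hC, hI, hA, hB⟩ := @gen DPC AUA p _ ℕ bo inferInstance inferInstance s hs hp
  exact @BMD LA finLA (strA bo.le s) Prop orM inferInstance C _ hC hI mu hA hB

end Pool.Agent.N700.VB.AUB
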